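import Mathlib
import Pool.Agent.Helper95.HadaMain

open Filter Topology Set

namespace Pool.Agent.Results.MP_bdd694_an.RadialLimit

open Pool.Agent.Helper95.Hada

/-- `f` is a Hadamard function: in the unit disc it is the sum of a convergent power series
`∑ a n * z ^ lam n` whose exponents are strictly increasing natural numbers with Hadamard gaps,
`lam (n+1) / lam n ≥ q` for some fixed `q > 1` and all `n` with `lam n ≥ 1`. -/
def IsHadamard (f : ℂ → ℂ) : Prop :=
  ∃ (q : ℝ) (lam : ℕ → ℕ) (a : ℕ → ℂ), 1 < q ∧ StrictMono lam ∧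
    (∀ n, 1 ≤ lam n → q * (lam n : ℝ) ≤ (lam (n + 1) : ℝ)) ∧
    ∀ z : ℂ, ‖z‖ < 1 → HasSum (fun n => a n * z ^ lam n) (f z)

/-- `f` has a radial limit at `exp (iθ)`: the limit of `f (r exp (iθ))` as `r → 1-` exists in the
extended plane (one-point compactification of the plane), finite or infinite. -/
def HasRadialLimit (f : ℂ → ℂ) (θ : ℝ) : Prop :=
  ∃ w : OnePoint ℂ, Tendsto (fun r : ℝ => ((f (r * Complex.exp (θ * Complex.I)) : ℂ) : OnePoint ℂ))
    (𝓝[<] 1) (𝓝 w)

theorem norm_pow_exp (s : ℝ) (c : ℂ) (m : ℕ) (z : ℂ) (hz : ‖z‖ = Real.exp (-s)) :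
    ‖c * z ^ m‖ = ‖c‖ * Real.exp (-((m : ℝ) * s)) := by
  rw [norm_mul, norm_pow, hz, ← Real.exp_nat_mul]
  congr 2
  ring

theorem result_of_main
    (main_ser : ∀ S : Ser, Tendsto S.M (𝓝[>] 0) atTop →
      ∃ θ : ℝ, Tendsto (fun s => ‖S.F s θ‖) (𝓝[>] 0) atTop)
    (f : ℂ → ℂ) (hf : IsHadamard f) : ∃ θ : ℝ, HasRadialLimit f θ := by
  obtain ⟨q, lam, a, hq, hmono, hgap, hsum⟩ := hf
  have hlam1 : ∀ k, 1 ≤ lam (k + 1) := fun k => by
    have : lam k < lam (k + 1) := hmono (Nat.lt_succ_self k)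
    omega
  -- summability
  have hsm : ∀ s : ℝ, 0 < s → Summable (fun n => ‖a n‖ * Real.exp (-((lam n : ℝ) * s))) := by
    intro s hs
    have hz : ‖((Real.exp (-s) : ℝ) : ℂ)‖ = Real.exp (-s) := by
      rw [Complex.norm_real, Real.norm_eq_abs, abs_of_pos (Real.exp_pos _)]
    have h1 := (hsum ((Real.exp (-s) : ℝ) : ℂ) (by
      rw [hz, Real.exp_lt_one_iff]; linarith)).summable.norm
    refine h1.congr fun n => ?_
    exact norm_pow_exp s (a n) (lam n) _ hz
  set S : Ser :=
    { q := q
      lam := fun k => (lam (k + 1) : ℝ)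
      a := fun k => a (k + 1)
      one_lt_q := hq
      lam_pos := fun k => by have := hlam1 k; positivity
      ratio := fun k => hgap (k + 1) (hlam1 k)
      summ := fun s hs => (summable_nat_add_iff 1).2 (hsm s hs) } with hS
  by_cases hA : Summable (fun n => ‖a n‖)
  · -- absolutely convergent up to the boundary
    refine ⟨0, ((∑' n, a n : ℂ) : OnePoint ℂ), ?_⟩
    have h1 : Tendsto (fun r : ℝ => f (r * Complex.exp (((0 : ℝ) : ℂ) * Complex.I))) (𝓝[<] 1)
        (𝓝 (∑' n, a n)) := by
      have h2 : Tendsto (fun r : ℝ => ∑' n, a n * ((r : ℂ)) ^ lam n) (𝓝[<] 1) (𝓝 (∑' n, a n)) := by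
        refine tendsto_tsum_of_dominated_convergence (bound := fun n => ‖a n‖) hA ?_ ?_
        · intro n
          have h3 : Tendsto (fun r : ℝ => a n * ((r : ℂ)) ^ lam n) (𝓝 1)
              (𝓝 (a n * ((1 : ℝ) : ℂ) ^ lam n)) := by
            apply Continuous.tendsto
            fun_prop
          simp only [Complex.ofReal_one, one_pow, mul_one] at h3
          exact h3.mono_left nhdsWithin_le_nhds
        · have h4 : ∀ᶠ r : ℝ in 𝓝[<] 1, r ∈ Set.Ioo (0 : ℝ) 1 :=
            Ioo_mem_nhdsLT (by norm_num)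
          filter_upwards [h4] with r hr n
          rw [norm_mul, norm_pow, Complex.norm_real, Real.norm_eq_abs, abs_of_pos hr.1]
          have : r ^ lam n ≤ 1 := pow_le_one₀ hr.1.le hr.2.le
          have h5 := norm_nonneg (a n)
          nlinarith
      refine h2.congr' ?_
      have h4 : ∀ᶠ r : ℝ in 𝓝[<] 1, r ∈ Set.Ioo (0 : ℝ) 1 :=
        Ioo_mem_nhdsLT (by norm_num)
      filter_upwards [h4] with r hr
      simp only [Complex.ofReal_zero, zero_mul, Complex.exp_zero, mul_one]
      refine (hsum (r : ℂ) ?_).tsum_eq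
      rw [Complex.norm_real, Real.norm_eq_abs, abs_of_pos hr.1]; exact hr.2
    exact (OnePoint.continuous_coe.tendsto _).comp h1
  · have hnot : ¬ Summable (fun k => ‖a (k + 1)‖) := fun h => hA ((summable_nat_add_iff 1).1 h)
    have hM : Tendsto S.M (𝓝[>] 0) atTop := by
      rw [tendsto_atTop]
      intro B
      rw [not_summable_iff_tendsto_nat_atTop_of_nonneg (fun _ => norm_nonneg _)] at hnot
      obtain ⟨K, hK⟩ := (tendsto_atTop.1 hnot (B + 1)).exists
      have h1 : Tendsto (fun s : ℝ => ∑ k ∈ Finset.range K, S.x k s) (𝓝 0)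
          (𝓝 (∑ k ∈ Finset.range K, S.x k 0)) := by
        apply Continuous.tendsto
        unfold Ser.x
        fun_prop
      have h2 : ∑ k ∈ Finset.range K, S.x k 0 = ∑ k ∈ Finset.range K, ‖a (k + 1)‖ := by
        apply Finset.sum_congr rfl
        intro k _
        simp [Ser.x, hS]
      rw [h2] at h1
      have h3 : ∀ᶠ s in 𝓝[>] (0 : ℝ), B < ∑ k ∈ Finset.range K, S.x k s :=
        (h1.mono_left nhdsWithin_le_nhds).eventually_const_lt (by linarith)
      filter_upwards [h3, self_mem_nhdsWithin] with s hs hs0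
      refine hs.le.trans ?_
      unfold Ser.M
      exact (S.summ s hs0).sum_le_tsum _ (fun i _ => mul_nonneg (norm_nonneg _) (Real.exp_pos _).le)
    obtain ⟨θ, hθ⟩ := main_ser S hM
    refine ⟨θ, OnePoint.infty, ?_⟩
    have hlog : Tendsto (fun r : ℝ => -Real.log r) (𝓝[<] 1) (𝓝[>] 0) := by
      rw [tendsto_nhdsWithin_iff]
      constructor
      · have h1 : Tendsto (fun r : ℝ => -Real.log r) (𝓝 1) (𝓝 (-Real.log 1)) :=
          (Real.continuousAt_log one_ne_zero).neg
        rw [Real.log_one, neg_zero] at h1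
        exact h1.mono_left nhdsWithin_le_nhds
      · have h4 : ∀ᶠ r : ℝ in 𝓝[<] 1, r ∈ Set.Ioo (0 : ℝ) 1 :=
          Ioo_mem_nhdsLT (by norm_num)
        filter_upwards [h4] with r hr
        have := Real.log_neg hr.1 hr.2
        simp only [Set.mem_Ioi]
        linarith
    have hF := hθ.comp hlog
    have hG : Tendsto (fun r : ℝ => ‖f (r * Complex.exp (θ * Complex.I))‖) (𝓝[<] 1) atTop := by
      have h1 : Tendsto (fun r : ℝ => ‖S.F (-Real.log r) θ‖ - ‖a 0‖) (𝓝[<] 1) atTop :=
        tendsto_atTop_add_const_right _ _ hF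
      refine tendsto_atTop_mono' _ ?_ h1
      have h4 : ∀ᶠ r : ℝ in 𝓝[<] 1, r ∈ Set.Ioo (0 : ℝ) 1 :=
        Ioo_mem_nhdsLT (by norm_num)
      filter_upwards [h4] with r hr
      have hz : (r : ℂ) * Complex.exp (θ * Complex.I) = Complex.exp (⟨Real.log r, θ⟩ : ℂ) := by
        have : (⟨Real.log r, θ⟩ : ℂ) = (Real.log r : ℂ) + θ * Complex.I := by
          apply Complex.ext <;> simp
        rw [this, Complex.exp_add, ← Complex.ofReal_exp, Real.exp_log hr.1]
      have hnz : ‖(r : ℂ) * Complex.exp (θ * Complex.I)‖ = r := by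
        rw [norm_mul, Complex.norm_exp_ofReal_mul_I, mul_one, Complex.norm_real,
          Real.norm_eq_abs, abs_of_pos hr.1]
      have hs1 := hsum ((r : ℂ) * Complex.exp (θ * Complex.I)) (by rw [hnz]; exact hr.2)
      have h5 : f ((r : ℂ) * Complex.exp (θ * Complex.I)) =
          a 0 * ((r : ℂ) * Complex.exp (θ * Complex.I)) ^ lam 0 + S.F (-Real.log r) θ := by
        rw [← hs1.tsum_eq, hs1.summable.tsum_eq_zero_add]
        congr 1
        unfold Ser.F Ser.G
        refine tsum_congr fun k => ?_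
        simp only [hS]
        congr 1
        rw [hz, neg_neg, ← Complex.exp_nat_mul]
        simp
      rw [h5]
      have h6 : ‖a 0 * ((r : ℂ) * Complex.exp (θ * Complex.I)) ^ lam 0‖ ≤ ‖a 0‖ := by
        rw [norm_mul, norm_pow, hnz]
        have : r ^ lam 0 ≤ 1 := pow_le_one₀ hr.1.le hr.2.le
        have h5 := norm_nonneg (a 0)
        nlinarith
      have h7 := norm_sub_norm_le (S.F (-Real.log r) θ)
        (-(a 0 * ((r : ℂ) * Complex.exp (θ * Complex.I)) ^ lam 0))
      rw [norm_neg, sub_neg_eq_add, add_comm] at h7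
      linarith
    have hco : Tendsto (fun r : ℝ => f (r * Complex.exp (θ * Complex.I))) (𝓝[<] 1)
        (coclosedCompact ℂ) := by
      rw [coclosedCompact_eq_cocompact, ← Metric.cobounded_eq_cocompact,
        ← tendsto_norm_atTop_iff_cobounded]
      exact hG
    exact OnePoint.tendsto_coe_infty.comp hco

/-- Sanity check: a Hadamard function is analytic in the unit disc (it is complex differentiable
there, being the sum of a convergent power series). -/
theorem IsHadamard.continuousOn_radius {f : ℂ → ℂ} (hf : IsHadamard f) :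
    ∃ (lam : ℕ → ℕ) (a : ℕ → ℂ), ∀ z : ℂ, ‖z‖ < 1 → f z = ∑' n, a n * z ^ lam n := by
  obtain ⟨q, lam, a, -, -, -, h⟩ := hf
  exact ⟨lam, a, fun z hz => (h z hz).tsum_eq.symm⟩

/-- Sanity check: an infinite radial limit is the same as `|f| → ∞` along the radius. -/
theorem hasRadialLimit_of_norm {f : ℂ → ℂ} {θ : ℝ}
    (h : Tendsto (fun r : ℝ => ‖f (r * Complex.exp (θ * Complex.I))‖) (𝓝[<] 1) atTop) :
    HasRadialLimit f θ := by
  refine ⟨OnePoint.infty, ?_⟩
  have h2 : Tendsto (fun r : ℝ => f (r * Complex.exp (θ * Complex.I))) (𝓝[<] 1)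
      (Bornology.cobounded ℂ) := tendsto_norm_atTop_iff_cobounded.1 h
  rw [Metric.cobounded_eq_cocompact, ← Filter.coclosedCompact_eq_cocompact] at h2
  exact OnePoint.tendsto_coe_infty.comp h2

/-- Every function analytic in the unit disc with Hadamard gaps has a radial limit, finite or
infinite, at at least one point of the unit circle. -/
theorem result (f : ℂ → ℂ) (hf : IsHadamard f) : ∃ θ : ℝ, HasRadialLimit f θ :=
  result_of_main main_ser f hf

end Pool.Agent.Results.MP_bdd694_an.RadialLimit
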